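import Pool.Agent.Run7.h117.SR.Vert

/-!
# Curvature in slabs: a local version of Milnor's theorem for slice discs, and its sharpness

The discs are smoothly embedded in the half-space `x₃ ≥ 0` of Euclidean four-space (coordinates
`x₀, …, x₃`), with boundary in the hyperplane `x₃ = 0` and vertical near the boundary (`HalfDisc`);
`Bounds γ φ`: such a disc `φ` with boundary curve `γ`. `MorseHt φ`: the height `x₃` is a Morse function
on the open disc; `nmin`, `nmax` are the numbers of its local minima and maxima. `Ribbon γ`: `γ` bounds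
a disc with `nmin = 0`.

Let `0 < κ < 1`. `capArea κ` is the area of the spherical cap of the unit vectors `n` with `n₃ > κ`.
The disc is steep at a point if all unit normal vectors have `n₃ < κ` there (`SteepAt`), that is, if
its tangent plane makes an angle greater than `arccos κ` with the horizontal hyperplanes.
`Cut κ φ c k`: the levels `0 = c 0 < c 1 < … < c k` are such that the disc is steep at all its points
at the heights `c 1, …, c k`. These levels cut it into the slabs `Slab φ c k i`, `i ≤ k`.
`lowIn κ φ A` (`uppIn κ φ A`) is the integral, over the part `A` of the disc and over the unit normal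
vectors `n` with `n₃ > κ`, of the determinant of the second fundamental form `II_n`, taken where `II_n`
is positive definite (negative definite).

1. In every slab on its own the extrema are controlled by the curvature: for a disc cut into slabs
   and all weights `a i, b i ≥ 0` there is a disc `ψ` with the same boundary and a Morse height all of
   whose local extrema lie in the slabs of `φ`, and in the `i`-th slab the numbers of the local minima
   and maxima satisfy `capArea κ (a i #min + b i #max) ≤ a i lowIn + b i uppIn`. Nothing is assumed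
   about the total curvature of the disc, only normal vectors close to the vertical direction count,
   and the bound for one slab does not involve the curvature in the other ones.
2. Pairs of numbers: for every boundary curve `γ` and all `m, n`, equivalent are: `γ` bounds a disc
   with a Morse height with at most `m` local minima and at most `n` local maxima; `γ` bounds a disc
   which is cut into slabs with `lowIn / (μ i + 1) + uppIn / (ν i + 1) < capArea κ` in the `i`-th slab,
   where `∑ μ i ≤ m` and `∑ ν i ≤ n`; `γ` bounds a disc which is cut into slabs in each of which one of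
   `lowIn`, `uppIn` is zero and the other one is at most `capArea κ`, with at most `m` slabs of the
   one and at most `n` slabs of the other kind. For `m = 0`: ribbon discs and their numbers of maxima.
   (With the whole disc as the only slab one gets only one number at a time: the set of the pairs is
   not determined by its support function.)
3. The gap. `γ` bounds a ribbon disc if and only if it bounds a disc which is cut into slabs of lower
   curvature less than `capArea κ`, and `γ` bounds a disc at all if and only if it bounds a disc which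
   is cut into slabs of lower curvature at most `capArea κ`. So the slice-ribbon conjecture is
   equivalent to the replacement of `≤` by `<`, and the bound of the theorem is optimal unless the
   conjecture is true. More generally for `m` local minima.
4. The limit `κ → 0`. If the disc is vertical at all its points at the heights `c 1, …, c k`, the same
   holds with the full curvatures (all `n` with `n₃ > 0`) and `π²`, half of the area of the unit sphere.

The proof uses the area formula and the stretching of `Pool.Agent.N503.ML` (helper503) and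
`Pool.Agent.N15.RC` (helper15), the case of one slab and of all normal vectors (`MP_752436_gt`,
`CurvatureOfRibbonDiscs`). New here: the area formula for a cone of directions; a shear of the
half-space which is a different linear function in each slab and which interpolates between them at
the levels (steepness prevents critical points there); for the converse, perturbation to distinct
critical heights, regular levels between them, stretching: for the normal vectors in a fixed cap
there is then no error term.
-/

set_option autoImplicit false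

namespace Pool.Agent.Results.MP_752436_gt.CurvatureInSlabs

open scoped ENNReal NNReal
open Pool.Agent.N503.ML Pool.Agent.N15.RC Pool.Agent.Y503.RB Run7.h117.SR
open MeasureTheory Metric

theorem result :
    -- (1) the curvature bounds the numbers of the extrema in each slab
    (∀ κ : ℝ, 0 < κ → κ < 1 → ∀ (φ : ℂ → E4) (k : ℕ) (c : ℕ → ℝ), HalfDisc φ → Cut κ φ c k →
      ∀ a b : ℕ → ℝ≥0, ∃ ψ : ℂ → E4, HalfDisc ψ ∧ (∀ z ∈ sphere (0 : ℂ) 1, ψ z = φ z) ∧
        MorseHt ψ ∧
        (∀ z ∈ ball (0 : ℂ) 1, IsLocalExtr (fun w => ψ w 3) z → ∃ i ≤ k, z ∈ Slab φ c k i) ∧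
        ∀ i ≤ k, capArea κ * (a i * (minIn ψ (Slab φ c k i) : ℝ≥0∞) +
          b i * (maxIn ψ (Slab φ c k i) : ℝ≥0∞)) ≤
            a i * lowIn κ φ (Slab φ c k i) + b i * uppIn κ φ (Slab φ c k i)) ∧
    -- (2) the pairs of numbers of local minima and maxima
    (∀ κ : ℝ, 0 < κ → κ < 1 → ∀ (γ : ℂ → E4) (m n : ℕ), List.TFAE [
      ∃ ψ : ℂ → E4, Bounds γ ψ ∧ MorseHt ψ ∧ nmin ψ ≤ m ∧ nmax ψ ≤ n,
      ∃ (φ : ℂ → E4) (k : ℕ) (c : ℕ → ℝ) (μ ν : ℕ → ℕ), Bounds γ φ ∧ Cut κ φ c k ∧
        ∑ i ∈ Finset.range (k + 1), μ i ≤ m ∧ ∑ i ∈ Finset.range (k + 1), ν i ≤ n ∧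
        ∀ i ≤ k, lowIn κ φ (Slab φ c k i) / (μ i + 1) + uppIn κ φ (Slab φ c k i) / (ν i + 1) <
          capArea κ,
      ∃ (φ : ℂ → E4) (k : ℕ) (c : ℕ → ℝ) (S T : Finset ℕ), Bounds γ φ ∧ Cut κ φ c k ∧
        Disjoint S T ∧ S.card ≤ m ∧ T.card ≤ n ∧
        ∀ i ≤ k, lowIn κ φ (Slab φ c k i) ≤ capArea κ ∧ uppIn κ φ (Slab φ c k i) ≤ capArea κ ∧
          (i ∉ S → lowIn κ φ (Slab φ c k i) = 0) ∧ (i ∉ T → uppIn κ φ (Slab φ c k i) = 0)]) ∧
    -- (3) the least number of local minima, and the gap between slice discs and ribbon discs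
    (∀ κ : ℝ, 0 < κ → κ < 1 → ∀ γ : ℂ → E4,
      (∀ m : ℕ, (∃ ψ : ℂ → E4, Bounds γ ψ ∧ MorseHt ψ ∧ nmin ψ ≤ m) ↔
        ∃ (φ : ℂ → E4) (k : ℕ) (c : ℕ → ℝ) (μ : ℕ → ℕ), Bounds γ φ ∧ Cut κ φ c k ∧
          ∑ i ∈ Finset.range (k + 1), μ i ≤ m ∧
          ∀ i ≤ k, lowIn κ φ (Slab φ c k i) < capArea κ * (μ i + 1)) ∧
      (Ribbon γ ↔ ∃ (φ : ℂ → E4) (k : ℕ) (c : ℕ → ℝ), Bounds γ φ ∧ Cut κ φ c k ∧
        ∀ i ≤ k, lowIn κ φ (Slab φ c k i) < capArea κ) ∧
      ((∃ φ : ℂ → E4, Bounds γ φ) ↔ ∃ (φ : ℂ → E4) (k : ℕ) (c : ℕ → ℝ), Bounds γ φ ∧ Cut κ φ c k ∧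
        ∀ i ≤ k, lowIn κ φ (Slab φ c k i) ≤ capArea κ)) ∧
    -- (4) vertical levels and all normal vectors
    (∀ (φ : ℂ → E4) (k : ℕ) (c : ℕ → ℝ), HalfDisc φ → Levels c k →
      (∀ i, 1 ≤ i → i ≤ k → ∀ z ∈ ball (0 : ℂ) 1, φ z 3 = c i → VertAt φ z) →
      ∀ m n : ℕ → ℕ,
      (∀ i ≤ k, lowAll φ (Slab φ c k i) / (m i + 1) + uppAll φ (Slab φ c k i) / (n i + 1) <
        ENNReal.ofReal (Real.pi ^ 2)) →
      ∃ ψ : ℂ → E4, HalfDisc ψ ∧ (∀ z ∈ sphere (0 : ℂ) 1, ψ z = φ z) ∧ MorseHt ψ ∧
        nmin ψ ≤ ((∑ i ∈ Finset.range (k + 1), m i : ℕ) : ℕ∞) ∧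
        nmax ψ ≤ ((∑ i ∈ Finset.range (k + 1), n i : ℕ) : ℕ∞)) :=
  ⟨fun _ h0 h1 _ k c h hc a b => slabs h h0 h1 k c hc.1 hc.2 a b,
    fun _ h0 h1 γ m n => tfae_pairs γ m n h0 h1,
    fun κ h0 h1 γ => ⟨fun m => (tfae_slabs γ m h0 h1).out 0 1, gap κ h0 h1 γ⟩,
    fun _ k c h hc hv m n hm => few_vert h k c hc hv m n hm⟩

end Pool.Agent.Results.MP_752436_gt.CurvatureInSlabs
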