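import Pool.Agent.Run7.h822.HM.Zero

/-!
# Slice discs in hyperbolic four-space: normal curvature, mean curvature and ribbon discs

The open unit ball carries the hyperbolic metric `4 |dx|² / (1 - |x|²)²`. `SliceDisc φ`: `φ` is a
smooth disc, properly and transversally embedded in the closed unit ball of Euclidean four-space.
`MorseDisc φ m`: the distance from the centre is a Morse function on the open disc with at most `m`
local maxima; `m = 0` is the standard description of ribbon discs.

`II` is the second fundamental form and `H` the mean curvature vector (half of the trace of `II`)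
with respect to the hyperbolic metric. `hypSff φ v z` is `II(v, v)` in the hyperbolic orthonormal
frame, divided by `(2 / (1 - |x|²))²`, and `hypMean φ z` is `H` in this frame, so that its Euclidean
length is the hyperbolic length of `H`. A point is slack (`Slack φ z`) if there are tangent vectors
`v`, `w`, not both zero, with `|II(v, v) + II(w, w)| ≤ |v|² + |w|²`. Examples: there is a tangent
direction in which the length of the normal curvature vector is at most one (for instance ruled
surfaces); or `|H| ≤ 1`. The number one is the curvature of the horospheres. `Tight φ` is the set of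
the other points of the open disc.

1. For a boundary curve `γ` the following are equivalent: `γ` bounds a ribbon disc; `γ` bounds a
   slice disc all of whose points are slack; `γ` bounds a slice disc for which the integral over
   the tight points, with respect to the hyperbolic area, and over the circle of unit normal vectors
   `n` of `P⁻³ (H·n - 1)₊²` is less than `2 π²`, where `P` is the Poisson kernel at the point at
   infinity of the horosphere with inner normal `n`; `γ` bounds a slice disc for which the integral
   over the tight points of `exp (3 r) (|H| - 1)₊²` is less than `4 π`, where `r` is the hyperbolic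
   distance from the centre.
2. If the first integral is less than `2 π² (m + 1)`, or the second one less than `4 π (m + 1)`,
   then a diffeomorphism of the ball minus a boundary point, which is the identity on the sphere,
   turns the disc into a disc on which the distance from the centre is a Morse function with at most
   `m` local maxima.
3. If `|H| ≤ 1` at all points then all points are slack, and 2 holds with `m = 0`.

The proof uses the theorems of helper503 and others on the total horospherical curvature
(`MP_752436_gt.HorosphericalCurvature`, `CurvatureGap`, libraries `Y503.RB` and its parts). New here: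
`4 det I det (rad II_n - I) ≤ (trace)²`, where the trace is the excess of the mean curvature over
that of the horosphere; a minimax argument in the convex hull of the curvature ellipse (a point is
tight if and only if both principal curvatures are greater than one in some normal direction); and
the fact that a slice disc of total horospherical curvature zero has no tight points.
-/

set_option autoImplicit false

namespace Pool.Agent.Results.MP_752436_gt.HyperbolicNormalCurvature

open scoped ENNReal
open Pool.Agent.Y503.RB Pool.Agent.Run7.h822.HM
open MeasureTheory Metric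

theorem result :
    -- (1) characterisation of the boundaries of ribbon discs
    (∀ γ : ℂ → E4, List.TFAE [
      ∃ φ : ℂ → E4, SliceDisc φ ∧ (∀ z ∈ sphere (0 : ℂ) 1, φ z = γ z) ∧
        (∀ z ∈ closedBall (0 : ℂ) 1, φ z ≠ 0) ∧ MorseDisc φ 0,
      ∃ φ : ℂ → E4, SliceDisc φ ∧ (∀ z ∈ sphere (0 : ℂ) 1, φ z = γ z) ∧
        ∀ z ∈ ball (0 : ℂ) 1, Slack φ z,
      ∃ φ : ℂ → E4, SliceDisc φ ∧ (∀ z ∈ sphere (0 : ℂ) 1, φ z = γ z) ∧
        ∫⁻ z in Tight φ, excessAt φ z < ENNReal.ofReal (2 * Real.pi ^ 2),
      ∃ φ : ℂ → E4, SliceDisc φ ∧ (∀ z ∈ sphere (0 : ℂ) 1, φ z = γ z) ∧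
        ∫⁻ z in Tight φ, ENNReal.ofReal (energyH φ z) < ENNReal.ofReal (4 * Real.pi)]) ∧
    -- (2) the number of local maxima
    (∀ φ : ℂ → E4, SliceDisc φ → ∀ m : ℕ,
      (∫⁻ z in Tight φ, excessAt φ z < ENNReal.ofReal (2 * Real.pi ^ 2 * (m + 1)) ∨
        ∫⁻ z in Tight φ, ENNReal.ofReal (energyH φ z) <
          ENNReal.ofReal (4 * Real.pi * (m + 1))) →
      ∃ ξ : E4, ‖ξ‖ = 1 ∧ (∀ z ∈ closedBall (0 : ℂ) 1, φ z ≠ ξ) ∧
        SliceDisc (fun w => push ξ (φ w)) ∧
        (∀ z ∈ sphere (0 : ℂ) 1, push ξ (φ z) = φ z) ∧
        MorseDisc (fun w => push ξ (φ w)) m) ∧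
    -- (3) mean curvature at most one
    (∀ φ : ℂ → E4, SliceDisc φ → (∀ z ∈ ball (0 : ℂ) 1, ‖hypMean φ z‖ ≤ 1) →
      (∀ z ∈ ball (0 : ℂ) 1, Slack φ z) ∧
      ∃ ξ : E4, ‖ξ‖ = 1 ∧ (∀ z ∈ closedBall (0 : ℂ) 1, φ z ≠ ξ) ∧
        SliceDisc (fun w => push ξ (φ w)) ∧
        (∀ z ∈ sphere (0 : ℂ) 1, push ξ (φ z) = φ z) ∧
        MorseDisc (fun w => push ξ (φ w)) 0) := by
  refine ⟨ribbon_tfae, fun φ h m hor => ?_, fun φ h hH => ?_⟩
  · rcases hor with h1 | h1
    · exact of_excess h m h1
    · exact of_energy h m h1
  · have hS : ∀ z ∈ ball (0 : ℂ) 1, Slack φ z := fun z hz =>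
      slack_of_mean (Pool.Agent.Run7.h822.HM.SliceDisc.smoothAt h hz) (h.inside z hz)
        (h.imm z (ball_subset_closedBall hz)) (hH z hz)
    refine ⟨hS, of_pointwise h ?_⟩
    filter_upwards [ae_restrict_mem isOpen_ball.measurableSet] with z hz
    exact Or.inl (hS z hz)

end Pool.Agent.Results.MP_752436_gt.HyperbolicNormalCurvature
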