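import Pool.Agent.Run7.h836.PC.FinC

/-!
# Projections of slice discs to three-space and ribbon discs

The slice discs are smooth discs in the half-space `x₃ ≥ 0` of Euclidean four-space with boundary in
the hyperplane `x₃ = 0`. `PropDisc φ`: `φ` is such a disc, properly embedded, whose tangent planes
along the boundary are not vertical. `HalfDisc ψ`: such a disc which is vertical near the boundary. A
disc is a ribbon disc if the height `x₃` is a Morse function (`MorseHt`) without local minima in the
interior (in the 4-ball: the distance from the centre has no local maxima); `nmin` is the number of
its local minima.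

The projection `hor φ` of a disc to the horizontal three-space is a surface in three-space; it is
immersed except at the points at which the tangent plane is vertical (`VertAt`; for a generic disc
finitely many points). `posCurv` is the total positive curvature, the integral of the positive part
of its Gauss curvature, and `will3` its Willmore energy, the integral of the square of its mean
curvature.

1. A closed curve bounds a disc with Morse height with at most `m` local minima if and only if it
   bounds a disc `φ` such that some linear function on three-space, restricted to the projection of
   `φ`, is a Morse function with at most `m` local minima in the interior. (`MorseOn`: no critical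
   points on the boundary circle, only nondegenerate ones in the interior.) `m = 0`: a knot is ribbon
   if and only if it bounds a slice disc such that one of the horizontal coordinates has no local
   minima.
2. The same holds for every linear function `⟪y, ·⟫` on four-space with `y₃ ≥ 0`.
3. If the projection of a disc `φ` is immersed outside a countable set and its total positive
   curvature is less than `4 π (m + 1)`, then its boundary bounds a disc with Morse height with at most
   `m` local minima. `m = 0`: if the total positive curvature of the projection of a slice disc is
   less than `4 π`, for instance if the Gauss curvature is nowhere positive, then the knot is ribbon.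
4. The same holds if the Willmore energy of the projection is less than `4 π (m + 1)`.
5. If the lower total curvature `lowE φ` of `φ` in four-space is less than `π² (m + 1)`, then the
   boundary of `φ` bounds a disc with Morse height with at most `m` local minima.

5 is the theorem of Milnor type of helper15 and helper503 (`CurvatureOfRibbonDiscs`) without the
condition that the disc is vertical near the boundary. New here: the vertical collar attached to the
disc creates no local minima for any linear function close to the given one (`collar_main`), the area
formula for the Gauss map in three-space, and the passage to horizontal linear functions. The proof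
uses the libraries `Pool.Agent.N15.RC` and `Pool.Agent.N503.ML`.
-/

set_option autoImplicit false

namespace Pool.Agent.Results.MP_752436_gt.ProjectedCurvature

open scoped ENNReal RealInnerProductSpace
open Pool.Agent.Run7.h836.PC Pool.Agent.N503.ML Pool.Agent.N15.RC Pool.Agent.Y503.RB
open MeasureTheory Metric

/-- The curve `γ` bounds a disc with Morse height with at most `m` local minima in the interior
(`m = 0`: a ribbon disc). -/
def BoundsMin (γ : ℂ → E4) (m : ℕ) : Prop :=
  ∃ ψ : ℂ → E4, HalfDisc ψ ∧ (∀ z ∈ sphere (0 : ℂ) 1, ψ z = γ z) ∧ MorseHt ψ ∧ nmin ψ ≤ m

/-- The function `u` on the closed disc is a Morse function with at most `m` local minima in the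
interior. -/
def FewMin (u : ℂ → ℝ) (m : ℕ) : Prop :=
  MorseOn u ∧ {z : ℂ | z ∈ ball (0 : ℂ) 1 ∧ IsLocalMin u z}.encard ≤ m

/-- The projection of the disc `φ` to three-space is immersed outside a countable set. -/
def GenProj (φ : ℂ → E4) : Prop := {z : ℂ | z ∈ closedBall (0 : ℂ) 1 ∧ VertAt φ z}.Countable

theorem result :
    -- (1) horizontal linear functions
    (∀ (γ : ℂ → E4) (m : ℕ), BoundsMin γ m ↔
      ∃ φ : ℂ → E4, PropDisc φ ∧ (∀ z ∈ sphere (0 : ℂ) 1, φ z = γ z) ∧
        ∃ w : E3, FewMin (fun z => ⟪w, hor φ z⟫) m) ∧
    (∀ φ : ℂ → E4, PropDisc φ → ∀ m : ℕ,
      -- (2) linear functions
      (∀ y : E4, 0 ≤ y 3 → FewMin (fun z => ⟪y, φ z⟫) m → BoundsMin φ m) ∧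
      -- (3) total positive curvature of the projection
      (GenProj φ → posCurv (hor φ) < ENNReal.ofReal (4 * Real.pi * (m + 1)) → BoundsMin φ m) ∧
      -- (4) Willmore energy of the projection
      (GenProj φ → will3 (hor φ) < ENNReal.ofReal (4 * Real.pi * (m + 1)) → BoundsMin φ m) ∧
      -- (5) lower total curvature in four-space
      (lowE φ < ENNReal.ofReal (Real.pi ^ 2 * (m + 1)) → BoundsMin φ m)) := by
  refine ⟨horizontal_iff, fun φ h m => ⟨fun y hy h1 => few_of_linear h hy h1.1 h1.2,
    fun hS h1 => ribbon_of_posCurv h hS (fun z hz hv => ⟨hz, hv⟩) m h1,
    fun hS h1 => ribbon_of_posCurv h hS (fun z hz hv => ⟨hz, hv⟩) m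
      ((posCurv_le_will3 _).trans_lt h1), fun h1 => ribbon_of_lowE h m h1⟩⟩

end Pool.Agent.Results.MP_752436_gt.ProjectedCurvature
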