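import Pool.Agent.Run7.h178.TF.Main

/-!
Slice discs with arbitrarily many triple points, the curves of whose preimage form two families of
disjoint curves. In the projection of a surface, the triple points are the Reidemeister moves of type
III in its movie. The movies here go from the link into the 4-ball, so that births of components are
the local maxima of the distance from the centre of the 4-ball. Every crossing belongs to a double
curve of the projection; the colours are names of classes of double curves. `curve k true` and
`curve k false` are the names of the classes of curves in the surface lying over the double curves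
with colour `k`, in the upper and in the lower sheet. Double curves with branch points have even
colours, and for even `k` these two classes are one.
-/

namespace Pool.Agent.Results.MP_752436_gt.TwoFamilies

open Pool.Agent.Y468.SR Pool.Agent.Y874.TP Pool.Agent.R800.TP

/-- Let the classical link with Gauss code `L` bound disjoint discs in the 4-ball by a movie, and let
`D` be the link in this movie before the first birth of a component. The discs bounded by `D` are
given by an arbitrary movie. Let the double curves of their projection be divided into classes, named
by colours. Let `Z` be a set of classes which do not meet `D` (`hZ`), such that through each triple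
point there pass at least two or none of the double curves (branches) with colours in `Z`; `T` is the
list of the triples of colours at the triple points of the second kind (of the double curves of the
top and the middle, the top and the bottom, and the middle and the bottom sheet). Suppose that
* the curves in the discs lying over the double curves with colours outside `Z` form two families
  (`F = true` and `F = false`), such that at the triple points in `T` only curves of different
  families cross (`h₃`);
* the colours of two of the three double curves through a triple point in `T` determine the
  third one (`h₄`);
* there are no two triple points in `T` at which two double curves of the same two colours are,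
  the one, the double curve of the top and the middle sheet and, the other, that of the top and the
  bottom sheet, but with exchanged colours; similarly for the double curves of the top and the bottom
  and of the middle and the bottom sheet (`h₅`).
Then `L` bounds disjoint ribbon discs, i.e. discs given by a movie without births. There is no
condition on the number of triple points and on the number of times two curves cross.
For instance, all this holds if `T` contains only copies of one triple of different odd colours. -/
theorem result (L : List (List Pass)) (Z : ℕ → Prop) (D : Code) (T : List (ℕ × ℕ × ℕ))
    (F : ℕ × Bool → Bool) (h₁ : Movie true false L.zipIdx D) (h₂ : TMovie false Z D T)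
    (hZ : ∀ p ∈ passes D, ¬Z (colour p.crossing))
    (h₃ : ∀ t ∈ T, F (curve t.1 true) ≠ F (curve t.2.1 true) ∧
      F (curve t.1 false) ≠ F (curve t.2.2 true) ∧ F (curve t.2.1 false) ≠ F (curve t.2.2 false))
    (h₄ : ∀ t ∈ T, ∀ t' ∈ T, (t.1 = t'.1 ∧ t.2.1 = t'.2.1) ∨ (t.1 = t'.1 ∧ t.2.2 = t'.2.2) ∨
      (t.2.1 = t'.2.1 ∧ t.2.2 = t'.2.2) → t = t')
    (h₅ : ∀ t ∈ T, ∀ t' ∈ T, ¬(t.1 = t'.2.1 ∧ t.2.1 = t'.1) ∧ ¬(t.2.1 = t'.2.2 ∧ t.2.2 = t'.2.1)) :
    Movie true false L.zipIdx [] := by
  have hn : (L.zipIdx.map Prod.snd).Nodup := by
    rw [List.zipIdx_map_snd]
    exact List.nodup_range'
  have hA : Pool.Agent.Y874.TP2.H178.Adm F fun t => t ∈ T := by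
    refine ⟨h₃, fun t t' ht ht' => ⟨fun e1 e2 => ?_, fun e1 e2 => ?_, fun e1 e2 => ?_⟩,
      fun t t' ht ht' => ?_⟩
    · rw [h₄ t' ht' t ht (Or.inl ⟨e1, e2⟩)]
    · rw [h₄ t' ht' t ht (Or.inr (Or.inl ⟨e1, e2⟩))]
    · rw [h₄ t' ht' t ht (Or.inr (Or.inr ⟨e1, e2⟩))]
    · obtain ⟨k1, k2⟩ := h₅ t' ht' t ht
      exact ⟨k1, k2⟩
  exact h₁.trans (Pool.Agent.Y874.TP2.H178.ribbon_of_families h₂ hZ (nodup_movie h₁ hn) hA)

end Pool.Agent.Results.MP_752436_gt.TwoFamilies
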